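import Mathlib

set_option autoImplicit false

namespace Pool.Agent.Helper4.SQ

open MeasureTheory Set

lemma le_K (k : ℕ) (α c : ℝ) (p u : ℝ → ℝ) (mp : MonotoneOn p (Set.Icc α c))
    (du : ∀ x, HasDerivAt (fun s => (s - c) * u s) (p x - k * u x) x)
    (x : ℝ) (hx : α ≤ x) (hxc : x < c) : p x ≤ (k + 1) * u x := by
  have hK : (0 : ℝ) < (k : ℝ) + 1 := by positivity
  have hd : ∀ s : ℝ, HasDerivAt (fun s => -((c - s) ^ k * ((s - c) * u s)) -
      p x / (k + 1) * (c - s) ^ (k + 1)) (-((c - s) ^ k * (p s - p x))) s := by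
    intro s
    have h1 : HasDerivAt (fun s : ℝ => (c - s) ^ k) ((k : ℝ) * (c - s) ^ (k - 1) * (-1)) s := by
      have := ((hasDerivAt_id s).const_sub c).fun_pow k
      simpa using this
    have h2 : HasDerivAt (fun s : ℝ => (c - s) ^ (k + 1))
        (((k + 1 : ℕ) : ℝ) * (c - s) ^ k * (-1)) s := by
      have := ((hasDerivAt_id s).const_sub c).fun_pow (k + 1)
      simpa using this
    have h3 := ((h1.mul (du s)).neg).sub (h2.const_mul (p x / (k + 1)))
    refine h3.congr_deriv ?_
    have h4 : (k : ℝ) * (c - s) ^ (k - 1) * (c - s) = k * (c - s) ^ k := by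
      rcases Nat.eq_zero_or_pos k with h | h
      · subst h; simp
      · rw [mul_assoc, ← pow_succ, Nat.sub_add_cancel h]
    have h5 : p x / ((k : ℝ) + 1) * (((k + 1 : ℕ) : ℝ) * (c - s) ^ k * (-1)) =
        -(p x * (c - s) ^ k) := by
      push_cast
      field_simp
    rw [h5]
    have h6 : (k : ℝ) * (c - s) ^ (k - 1) * (-1) * ((s - c) * u s) =
        k * (c - s) ^ k * u s := by
      have : (k : ℝ) * (c - s) ^ (k - 1) * (-1) * ((s - c) * u s) =
        ((k : ℝ) * (c - s) ^ (k - 1) * (c - s)) * u s := by ring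
      rw [this, h4]
    rw [h6]
    ring
  have hanti : AntitoneOn (fun s => -((c - s) ^ k * ((s - c) * u s)) -
      p x / (k + 1) * (c - s) ^ (k + 1)) (Set.Icc x c) := by
    apply antitoneOn_of_deriv_nonpos (convex_Icc x c)
    · exact fun s _ => (hd s).continuousAt.continuousWithinAt
    · exact fun s _ => (hd s).differentiableAt.differentiableWithinAt
    · intro s hs
      rw [interior_Icc] at hs
      rw [(hd s).deriv]
      have h1 : p x ≤ p s := mp ⟨hx, hxc.le⟩ ⟨hx.trans hs.1.le, hs.2.le⟩ hs.1.le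
      have h2 : 0 ≤ (c - s) ^ k := pow_nonneg (by linarith [hs.2]) _
      have := mul_nonneg h2 (sub_nonneg.2 h1)
      linarith
  have h := hanti (left_mem_Icc.2 hxc.le) (right_mem_Icc.2 hxc.le) hxc.le
  simp only [sub_self] at h
  have h0 : (0 : ℝ) ^ (k + 1) = 0 := by simp
  rw [h0] at h
  have hpos : 0 < (c - x) ^ (k + 1) := pow_pos (by linarith) _
  have h7 : -((c - x) ^ k * ((x - c) * u x)) = (c - x) ^ (k + 1) * u x := by
    rw [pow_succ]; ring
  rw [h7] at h
  have h8 : 0 ≤ (c - x) ^ (k + 1) * (u x - p x / (k + 1)) := by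
    have : (c - x) ^ (k + 1) * (u x - p x / (k + 1)) =
      (c - x) ^ (k + 1) * u x - p x / (k + 1) * (c - x) ^ (k + 1) := by ring
    rw [this]
    simpa using h
  have h9 : 0 ≤ u x - p x / (k + 1) := by
    by_contra hcon
    push Not at hcon
    have := mul_neg_of_pos_of_neg hpos hcon
    linarith
  have h10 : p x / (k + 1) ≤ u x := by linarith
  rw [div_le_iff₀ hK] at h10
  linarith

lemma step (k : ℕ) (α c : ℝ) (hαc : α ≤ c) (p q u v : ℝ → ℝ) (hp : Continuous p)
    (hq : Continuous q) (hu : Continuous u) (hv : Continuous v)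
    (mp : MonotoneOn p (Set.Icc α c)) (mq : MonotoneOn q (Set.Icc α c))
    (du : ∀ x, HasDerivAt (fun s => (s - c) * u s) (p x - k * u x) x)
    (dv : ∀ x, HasDerivAt (fun s => (s - c) * v s) (q x - k * v x) x)
    (huv : 0 ≤ u α * v α) (A B C : ℝ)
    (hW : ∀ x ∈ Set.Icc α c, 0 ≤ A * x ^ 2 + B * x + C)
    (hI : 0 ≤ ∫ x in α..c, (k * (A * x ^ 2 + B * x + C) + (c - x) * (2 * A * x + B)) *
      (u x * v x)) :
    0 ≤ ∫ x in α..c, (A * x ^ 2 + B * x + C) * (p x * q x) := by
  have hK : (0 : ℝ) < (k : ℝ) + 1 := by positivity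
  obtain ⟨F', hF'⟩ : ∃ F' : ℝ → ℝ, F' = fun x => (2 * A * x + B) * ((x - c) * (u x * v x)) +
    (A * x ^ 2 + B * x + C) * (p x * v x + u x * q x - (2 * k + 1) * (u x * v x)) := ⟨_, rfl⟩
  have hF'c : Continuous F' := by rw [hF']; fun_prop
  have hF : ∫ x in α..c, F' x = (A * c ^ 2 + B * c + C) * ((c - c) * (u c * v c)) -
      (A * α ^ 2 + B * α + C) * ((α - c) * (u α * v α)) := by
    apply intervalIntegral.integral_eq_sub_of_hasDerivAt_of_le hαc
      (f := fun x => (A * x ^ 2 + B * x + C) * ((x - c) * (u x * v x)))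
    · exact (by fun_prop : Continuous (fun x =>
        (A * x ^ 2 + B * x + C) * ((x - c) * (u x * v x)))).continuousOn
    · intro x hx
      have hne : x - c ≠ 0 := by linarith [hx.2]
      have h1 : HasDerivAt (fun s => A * s ^ 2 + B * s + C) (2 * A * x + B) x := by
        have := (((hasDerivAt_pow 2 x).const_mul A).add ((hasDerivAt_id x).const_mul B)).add_const C
        refine this.congr_deriv ?_
        simp
        ring
      have h2 : HasDerivAt (fun s => ((s - c) * u s) * ((s - c) * v s) / (s - c))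
          ((((p x - k * u x) * ((x - c) * v x) + ((x - c) * u x) * (q x - k * v x)) * (x - c) -
            ((x - c) * u x) * ((x - c) * v x) * 1) / (x - c) ^ 2) x :=
        ((du x).mul (dv x)).div ((hasDerivAt_id x).sub_const c) hne
      have h3 : HasDerivAt (fun s => (s - c) * (u s * v s))
          (p x * v x + u x * q x - (2 * k + 1) * (u x * v x)) x := by
        refine (h2.congr_of_eventuallyEq ?_).congr_deriv ?_
        · have : ∀ᶠ s in nhds x, s < c := eventually_lt_nhds hx.2
          filter_upwards [this] with s hs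
          have hs' : s - c ≠ 0 := by linarith
          field_simp
        · field_simp
          ring
      rw [hF']
      refine (h1.mul h3).congr_deriv ?_
      ring
    · exact hF'c.intervalIntegrable _ _
  have hF0 : 0 ≤ ∫ x in α..c, F' x := by
    rw [hF]
    have h1 := hW α (left_mem_Icc.2 hαc)
    have h2 := mul_nonneg (mul_nonneg h1 (sub_nonneg.2 hαc)) huv
    nlinarith
  have hc1 : Continuous (fun x => (k * (A * x ^ 2 + B * x + C) + (c - x) * (2 * A * x + B)) *
      (u x * v x)) := by fun_prop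
  have hle : ∫ x in α..c, ((k : ℝ) + 1) * (F' x +
      (k * (A * x ^ 2 + B * x + C) + (c - x) * (2 * A * x + B)) * (u x * v x)) ≤
      ∫ x in α..c, (A * x ^ 2 + B * x + C) * (p x * q x) := by
    apply intervalIntegral.integral_mono_on_of_le_Ioo hαc
    · exact (continuous_const.mul (hF'c.add hc1)).intervalIntegrable _ _
    · exact (by fun_prop : Continuous (fun x => (A * x ^ 2 + B * x + C) *
        (p x * q x))).intervalIntegrable _ _
    · intro x hx
      have h1 := le_K k α c p u mp du x hx.1.le hx.2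
      have h2 := le_K k α c q v mq dv x hx.1.le hx.2
      have h3 := hW x ⟨hx.1.le, hx.2.le⟩
      have h4 := mul_nonneg h3 (mul_nonneg (sub_nonneg.2 h1) (sub_nonneg.2 h2))
      rw [hF']
      simp only
      nlinarith
  refine le_trans ?_ hle
  rw [intervalIntegral.integral_const_mul, intervalIntegral.integral_add
    (hF'c.intervalIntegrable _ _) (hc1.intervalIntegrable _ _)]
  exact mul_nonneg hK.le (add_nonneg hF0 hI)

end Pool.Agent.Helper4.SQ
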